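import Pool.Agent.H159.Flexibility

/-!
# Flexibility of purely morphic ternary square-free words (MP_0e1483, Q2): `M_pm = 3/16`
-/

set_option autoImplicit false

namespace Pool.Agent.Results.MP_0e1483_co.PurelyMorphicSup

open Pool.Agent.H159.Flexibility

/-- **MP_0e1483, Q2.** The supremum of the flexibilities of the purely morphic infinite ternary
square-free words is `3/16`, and it is attained. -/
theorem result :
    IsGreatest {r : ℝ | ∃ u : ℕ → Fin 3, SquareFree u ∧ PurelyMorphic u ∧ r = flex u}
      (3 / 16) := by
  refine ⟨⟨fix, fix_squareFree, ⟨img, 0, fix_generates⟩, flex_fix.symm⟩, ?_⟩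
  rintro r ⟨u, hu, -, rfl⟩
  exact flex_le hu

end Pool.Agent.Results.MP_0e1483_co.PurelyMorphicSup
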